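import Pool.Agent.Ins.Final
import Pool.Agent.Ins.Open
import Pool.Agent.Ins.Pair

/-!
# MP_79b4ff_gt: knotoids made of a four-strand braid and `n` further crossings

`Diagram n` is an oriented diagram with `n` crossings and four gates (four points lying side by side
on parallel arcs), `D.insert w` the diagram obtained by inserting the braid word `w` at the gates.
Cutting the arc which leaves the site `z` (tail and head are its two ends) gives a knotoid diagram;
`openNormalized` is its normalized bracket `f`.  For every `n` and every Laurent polynomial `P`
there is a bound `C` such that the exponent sum of `w` is less than `C` in absolute value whenever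
the knotoid has `f = P`.
-/

namespace Pool.Agent.Results.MP_79b4ff_gt.BraidInsertion

open LaurentPolynomial Pool.Agent.Ins

theorem result (n : ℕ) (P : ℤ[T;T⁻¹]) : ∃ C : ℕ, ∀ (D : Diagram n) (z : Site n)
    (w : List (Fin 3 × ℤˣ)), (D.insert w).IsKnot →
      (D.insert w).openNormalized (place z w) = P → |expSum w| < C := by
  obtain ⟨C, hC⟩ := Final_bound (Final_main n P)
  refine ⟨C, fun D z w hK hP => hC _ ⟨D, w, hK, ?_, rfl⟩⟩
  have hO := thm_Open thm_Pair
  rw [← hP]
  unfold Diagram.normalized Diagram.openNormalized Diagram.bracket Diagram.openBracket
  congr 1
  refine Finset.sum_congr rfl fun s _ => ?_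
  rw [hO]

end Pool.Agent.Results.MP_79b4ff_gt.BraidInsertion
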